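import Pool.Agent.W5h52.HM.Fin

/-!
# Harmonic measure of boundary rays seen from semigroup orbits

For every continuous semigroup `(φ_t)` of holomorphic self-maps of the disc whose orbit `φ_t(0)`
tends to `1` (in particular for every non-elliptic one with Denjoy-Wolff point `1`), the harmonic
measure `h_t(z_s)` is at least `1 / 30` for all `0 ≤ t ≤ s`.

Idea of the proof. In the half-plane the orbit solves `z' = G(z)` with `Re G ≥ 0`. If the orbit is
at the same height at the times `r < s`, integrate `log G` over the closed curve made of the orbit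
from `r` to `s` and the horizontal segment: this bounds `∫ Im G · arg G dt` by
`∫ Re G (log |G(z_t)| - log |G(Re z_t + i y)|) dt`, and the Schwarz-Pick lemma for `G` bounds the
last difference by `2 √(Δ / Re z_t)`, `Δ` the largest deviation of the height. So
`2 Δ ≤ Re z_s + (16 / π) √(Δ Re z_s)` and `Δ ≤ 8 Re z_s`.

Definitions (in `Pool.Agent.W5h52.HM.Defs`): `IsSemigroup`, `cayley`, `Z` (the orbit in the
half-plane), `harm` (harmonic measure in the half-plane, as a Poisson integral), `Theta`, `m`.
-/

set_option autoImplicit false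

open Filter Topology Pool.Agent.W5h52.HM

namespace Pool.Agent.Results.MP_26616c_an.UniformBound

/-- For every continuous semigroup of holomorphic self-maps of the unit disc with `φ_t(0) → 1` as
`t → ∞`: `h_t(z_s) ≥ 1 / 30` for all `0 ≤ t ≤ s`, hence `m(t) ≥ 1 / 30` for all `t ≥ 0` and
`liminf m(t) ≥ 1 / 30`. -/
theorem result (φ : ℝ → ℂ → ℂ) (h : IsSemigroup φ)
    (hlim : Tendsto (fun t => φ t 0) atTop (𝓝 1)) :
    (∀ t s : ℝ, 0 ≤ t → t ≤ s → 1 / 30 ≤ harm (Theta φ t) (Z φ s)) ∧
    (∀ t : ℝ, 0 ≤ t → 1 / 30 ≤ m φ t) ∧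
    1 / 30 ≤ liminf (m φ) atTop :=
  ⟨fun _ _ ht hts => main h hlim ht hts, fun _ ht => (main2 h hlim ht).1, main3 h hlim⟩

end Pool.Agent.Results.MP_26616c_an.UniformBound
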